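import Pool.Agent.H88.Hot2

open Pool.Agent.H88.Hot

namespace Pool.Agent.Results.MP_159dfd_an.Counter

theorem result : ∃ G : QG, G.Good ∧ (∃ e, ¬ G.Conn {e}ᶜ) ∧ (G.M 0).Infinite :=
  ⟨GA, GA_good, ⟨0, GA_bridge⟩, GA_inf⟩

end Pool.Agent.Results.MP_159dfd_an.Counter
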